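import Mathlib

/-!
Binary positions of a natural number, and counting gaps.
-/

namespace Pool.Agent.H645R2.C3

/-- The `i`-th binary digit. -/
def dg (i n : ℕ) : ℕ := n / 2 ^ i % 2

/-- The increasing list of the positions of the ones of `n`. -/
def L (n : ℕ) : List ℕ := (List.range n).filter (fun i => decide (dg i n ≠ 0))

/-- The lowest one. -/
def la (n : ℕ) : ℕ := (L n).headD 0

/-- The highest one. -/
def mu (n : ℕ) : ℕ := (L n).getLastD 0

/-- The odd part. -/
def U (n : ℕ) : ℕ := n / 2 ^ la n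

theorem dg_lt {i n : ℕ} (h : dg i n ≠ 0) : i < n := by
  by_contra hc
  push Not at hc
  apply h
  unfold dg
  have h1 : n < 2 ^ i := lt_of_le_of_lt hc (Nat.lt_pow_self (by norm_num))
  rw [Nat.div_eq_of_lt h1]

theorem mem_L {i n : ℕ} : i ∈ L n ↔ dg i n ≠ 0 := by
  unfold L
  rw [List.mem_filter, List.mem_range, decide_eq_true_iff]
  exact ⟨fun h => h.2, fun h => ⟨dg_lt h, h⟩⟩

theorem L_sorted (n : ℕ) : (L n).SortedLT :=
  ((List.sortedLT_range n).pairwise.filter _).sortedLT

theorem exists_dg {n : ℕ} (h : 0 < n) : ∃ i, dg i n ≠ 0 := by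
  refine ⟨Nat.log 2 n, ?_⟩
  unfold dg
  have h1 : 2 ^ Nat.log 2 n ≤ n := Nat.pow_log_le_self 2 h.ne'
  have h2 : n < 2 ^ (Nat.log 2 n + 1) := Nat.lt_pow_succ_log_self (by norm_num) n
  have h3 : 1 ≤ n / 2 ^ Nat.log 2 n := by
    rw [Nat.one_le_div_iff (by positivity)]; exact h1
  have h4 : n / 2 ^ Nat.log 2 n < 2 := by
    rw [Nat.div_lt_iff_lt_mul (by positivity)]
    rw [pow_succ] at h2
    linarith
  rw [Nat.mod_eq_of_lt h4]
  omega

theorem L_ne_nil {n : ℕ} (h : 0 < n) : L n ≠ [] := by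
  obtain ⟨i, hi⟩ := exists_dg h
  intro hc
  have := mem_L.2 hi
  rw [hc] at this
  simp at this

theorem la_mem {n : ℕ} (h : 0 < n) : la n ∈ L n := by
  unfold la
  have := L_ne_nil h
  cases hl : L n with
  | nil => exact absurd hl this
  | cons a l => simp

theorem mu_mem {n : ℕ} (h : 0 < n) : mu n ∈ L n := by
  unfold mu
  have := L_ne_nil h
  rw [List.getLastD_eq_getLast?, List.getLast?_eq_some_getLast this]
  exact List.getLast_mem this

theorem la_le {n i : ℕ} (hi : i ∈ L n) : la n ≤ i := by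
  unfold la
  have hs := (L_sorted n).pairwise
  cases hl : L n with
  | nil => rw [hl] at hi; simp at hi
  | cons a l =>
    rw [hl] at hi hs
    rw [List.pairwise_cons] at hs
    simp only [List.headD_cons]
    rcases List.mem_cons.1 hi with h | h
    · exact h.ge
    · exact (hs.1 i h).le

theorem dg_of_lt_la {n i : ℕ} (hi : i < la n) : dg i n = 0 := by
  by_contra hc
  have := la_le (mem_L.2 hc)
  omega

theorem dvd_of_dg {n K : ℕ} (h : ∀ i < K, dg i n = 0) : 2 ^ K ∣ n := by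
  induction K with
  | zero => simp
  | succ K ih =>
    obtain ⟨q, hq⟩ := ih (fun i hi => h i (by omega))
    have h1 := h K (by omega)
    unfold dg at h1
    rw [hq, Nat.mul_div_cancel_left _ (by positivity)] at h1
    obtain ⟨r, hr⟩ := Nat.dvd_of_mod_eq_zero h1
    rw [hq, hr, pow_succ]
    exact ⟨r, by ring⟩

theorem la_dvd (n : ℕ) : 2 ^ la n ∣ n := dvd_of_dg fun _ hi => dg_of_lt_la hi

theorem dg_of_dvd {n K i : ℕ} (h : 2 ^ K ∣ n) (hi : i < K) : dg i n = 0 := by
  obtain ⟨q, rfl⟩ := h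
  obtain ⟨j, rfl⟩ := Nat.exists_eq_add_of_lt hi
  unfold dg
  have h1 : 2 ^ (i + j + 1) * q = 2 ^ i * (2 * (2 ^ j * q)) := by
    rw [pow_succ, pow_add]; ring
  rw [h1, Nat.mul_div_cancel_left _ (by positivity), Nat.mul_mod_right]

theorem le_la_of_dvd {n K : ℕ} (hn : 0 < n) (h : 2 ^ K ∣ n) : K ≤ la n := by
  by_contra hc
  push Not at hc
  exact mem_L.1 (la_mem hn) (dg_of_dvd h hc)

theorem dg_of_lt_pow {n K i : ℕ} (h : n < 2 ^ K) (hi : K ≤ i) : dg i n = 0 := by
  unfold dg
  have h1 : n < 2 ^ i := lt_of_lt_of_le h (Nat.pow_le_pow_right (by norm_num) hi)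
  rw [Nat.div_eq_of_lt h1]

theorem dg_add_low {m q K i : ℕ} (hi : i < K) : dg i (m + 2 ^ K * q) = dg i m := by
  unfold dg
  obtain ⟨j, rfl⟩ := Nat.exists_eq_add_of_lt hi
  have h1 : 2 ^ (i + j + 1) * q = 2 ^ i * (2 * (2 ^ j * q)) := by
    rw [pow_succ, pow_add]; ring
  rw [h1, Nat.add_mul_div_left _ _ (by positivity), Nat.add_mul_mod_self_left]

theorem dg_add_high {m q K i : ℕ} (hm : m < 2 ^ K) (hi : K ≤ i) :
    dg i (m + 2 ^ K * q) = dg i (2 ^ K * q) := by
  unfold dg
  obtain ⟨j, rfl⟩ := Nat.exists_eq_add_of_le hi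
  rw [pow_add, ← Nat.div_div_eq_div_mul, ← Nat.div_div_eq_div_mul,
    Nat.add_mul_div_left _ _ (by positivity), Nat.div_eq_of_lt hm,
    Nat.mul_div_cancel_left _ (by positivity), Nat.zero_add]

theorem mem_L_lt {n K i : ℕ} (h : n < 2 ^ K) (hi : i ∈ L n) : i < K := by
  by_contra hc
  push Not at hc
  exact mem_L.1 hi (dg_of_lt_pow h hc)

theorem le_mem_L {n K i : ℕ} (h : 2 ^ K ∣ n) (hi : i ∈ L n) : K ≤ i := by
  by_contra hc
  push Not at hc
  exact mem_L.1 hi (dg_of_dvd h hc)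

theorem L_add {m n K : ℕ} (h2 : m < 2 ^ K) (h1 : 2 ^ K ∣ n) : L (m + n) = L m ++ L n := by
  obtain ⟨q, hq⟩ := h1
  refine (L_sorted _).eq_of_mem_iff ?_ ?_
  · rw [List.sortedLT_iff_pairwise, List.pairwise_append]
    refine ⟨(L_sorted m).pairwise, (L_sorted n).pairwise, fun a ha b hb => ?_⟩
    have := mem_L_lt h2 ha
    have := le_mem_L ⟨q, hq⟩ hb
    omega
  · intro i
    rw [List.mem_append, mem_L, mem_L, mem_L]
    rcases Nat.lt_or_ge i K with hi | hi
    · have e1 : dg i (m + n) = dg i m := by rw [hq]; exact dg_add_low hi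
      rw [e1, dg_of_dvd ⟨q, hq⟩ hi]
      simp
    · have e1 : dg i (m + n) = dg i n := by rw [hq]; exact dg_add_high h2 hi
      rw [e1, dg_of_lt_pow h2 hi]
      simp

/-- The lowest one of `2 ^ p * u`, `u` odd. -/
theorem la_two_pow_mul {p u : ℕ} (hu : u % 2 = 1) : la (2 ^ p * u) = p := by
  have hpos : 0 < 2 ^ p * u := Nat.mul_pos (by positivity) (by omega)
  apply le_antisymm
  · apply la_le
    rw [mem_L]
    unfold dg
    rw [Nat.mul_div_cancel_left _ (by positivity)]
    omega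
  · exact le_la_of_dvd hpos ⟨u, rfl⟩

theorem U_two_pow_mul {p u : ℕ} (hu : u % 2 = 1) : U (2 ^ p * u) = u := by
  unfold U
  rw [la_two_pow_mul hu, Nat.mul_div_cancel_left _ (by positivity)]

theorem eq_two_pow_mul {n : ℕ} : n = 2 ^ la n * U n :=
  (Nat.mul_div_cancel' (la_dvd n)).symm

theorem U_odd {n : ℕ} (hn : 0 < n) : U n % 2 = 1 := by
  have h := mem_L.1 (la_mem hn)
  unfold dg at h
  change U n % 2 ≠ 0 at h
  omega

/-! ### Counting gaps -/

/-- The number of pairs of consecutive elements of the list satisfying `γ`. -/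
def gn (γ : ℕ → ℕ → Bool) : List ℕ → ℕ
  | [] => 0
  | [_] => 0
  | a :: b :: l => (γ a b).toNat + gn γ (b :: l)

theorem gn_append (γ : ℕ → ℕ → Bool) (l : List ℕ) (hl : l ≠ []) (r : List ℕ) (hr : r ≠ []) :
    gn γ (l ++ r) = gn γ l + (γ (l.getLastD 0) (r.headD 0)).toNat + gn γ r := by
  induction l with
  | nil => exact absurd rfl hl
  | cons a l ih =>
    cases l with
    | nil =>
      cases r with
      | nil => exact absurd rfl hr
      | cons b r => simp [gn]
    | cons b l =>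
      have h := ih (by simp)
      have e : (a :: b :: l).getLastD 0 = (b :: l).getLastD 0 := by
        simp [List.getLastD_eq_getLast?, List.getLast?_cons_cons]
      rw [e]
      simp only [List.cons_append, gn] at h ⊢
      rw [h]
      omega

theorem gn_zero {γ : ℕ → ℕ → Bool} {l : List ℕ}
    (h : ∀ a ∈ l, ∀ b ∈ l, γ a b = false) : gn γ l = 0 := by
  induction l with
  | nil => rfl
  | cons a l ih =>
    cases l with
    | nil => rfl
    | cons b l =>
      simp only [gn]
      rw [h a (by simp) b (by simp), ih (fun x hx y hy => h x (List.mem_cons_of_mem _ hx) y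
          (List.mem_cons_of_mem _ hy))]
      rfl

end Pool.Agent.H645R2.C3
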