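import Pool.Agent.H645R2.C3.Main

/-! Computability of the colouring. -/

namespace Pool.Agent.H645R2.C3

open Pool.Agent.Helper446 Pool.Agent.Helper446.RE Pool.Agent.Helper446.Oracle

theorem pr_pow2 : Primrec (fun i : ℕ => 2 ^ i) := by
  have h : Primrec (fun i : ℕ => (Nat.rec (motive := fun _ => ℕ) 1 (fun _ r => r * 2) i : ℕ)) :=
    Primrec.nat_rec₁ 1 (Primrec.nat_mul.comp Primrec.snd (Primrec.const 2)).to₂
  refine h.of_eq fun i => ?_
  induction i with
  | zero => rfl
  | succ i ih => rw [pow_succ, ← ih]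

theorem pr_dg : Primrec₂ dg := by
  unfold dg Primrec₂
  exact Primrec.nat_mod.comp (Primrec.nat_div.comp Primrec.snd (pr_pow2.comp Primrec.fst))
    (Primrec.const 2)

theorem pr_L : Primrec L := by
  have h : Primrec fun n : ℕ => (List.range n).filterMap
      (fun i => if dg i n = 0 then none else some i) :=
    Primrec.listFilterMap Primrec.list_range
      (Primrec.ite (Primrec.eq.comp (pr_dg.comp Primrec.snd Primrec.fst) (Primrec.const 0))
        (Primrec.const none) (Primrec.option_some.comp Primrec.snd)).to₂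
  refine h.of_eq fun n => ?_
  unfold L
  rw [← List.filterMap_eq_filter]
  congr 1
  funext i
  by_cases hi : dg i n = 0 <;> simp [Option.guard, hi]

@[fun_prop] theorem c_L {α : Type*} [Primcodable α] {f : α → ℕ} (hf : Computable f) :
    Computable fun a => L (f a) := pr_L.to_comp.comp hf

theorem headD_eq (l : List ℕ) : l.headD 0 = (l[0]?).getD 0 := by
  cases l <;> simp

theorem getLastD_eq (l : List ℕ) : l.getLastD 0 = (l[l.length - 1]?).getD 0 := by
  rw [List.getLastD_eq_getLast?, List.getLast?_eq_getElem?]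

@[fun_prop] theorem c_getD {α β : Type*} [Primcodable α] [Primcodable β] {f : α → Option β}
    {g : α → β} (hf : Computable f) (hg : Computable g) : Computable fun a => (f a).getD (g a) :=
  Computable.option_getD hf hg

@[fun_prop] theorem c_headD {α : Type*} [Primcodable α] {f : α → List ℕ} (hf : Computable f) :
    Computable fun a => (f a).headD 0 := by
  simp only [headD_eq]
  fun_prop

@[fun_prop] theorem c_getLastD {α : Type*} [Primcodable α] {f : α → List ℕ} (hf : Computable f) :
    Computable fun a => (f a).getLastD 0 := by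
  simp only [getLastD_eq]
  fun_prop

@[fun_prop] theorem c_la {α : Type*} [Primcodable α] {f : α → ℕ} (hf : Computable f) :
    Computable fun a => la (f a) := by
  unfold la
  fun_prop

@[fun_prop] theorem c_mu {α : Type*} [Primcodable α] {f : α → ℕ} (hf : Computable f) :
    Computable fun a => mu (f a) := by
  unfold mu
  fun_prop

@[fun_prop] theorem c_U {α : Type*} [Primcodable α] {f : α → ℕ} (hf : Computable f) :
    Computable fun a => U (f a) := by
  unfold U
  have h1 : Computable fun a => 2 ^ la (f a) := pr_pow2.to_comp.comp (c_la hf)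
  exact Primrec.nat_div.to_comp.comp hf h1

/-- The count of gaps as a fold. -/
def gnf (γ : ℕ → ℕ → Bool) (l : List ℕ) : ℕ :=
  (l.foldl (fun (st : (Bool × ℕ) × ℕ) b =>
    ((true, b), bif st.1.1 then st.2 + (bif γ st.1.2 b then 1 else 0) else st.2))
    ((false, 0), 0)).2

theorem gnf_aux (γ : ℕ → ℕ → Bool) (l : List ℕ) (a acc : ℕ) :
    (l.foldl (fun (st : (Bool × ℕ) × ℕ) b =>
    ((true, b), bif st.1.1 then st.2 + (bif γ st.1.2 b then 1 else 0) else st.2))
    ((true, a), acc)).2 = acc + gn γ (a :: l) := by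
  induction l generalizing a acc with
  | nil => simp [gn]
  | cons b l ih =>
    rw [List.foldl_cons]
    simp only [cond_true]
    rw [ih]
    simp only [gn]
    cases γ a b <;> simp [Nat.add_assoc]

theorem gnf_eq (γ : ℕ → ℕ → Bool) (l : List ℕ) : gnf γ l = gn γ l := by
  cases l with
  | nil => rfl
  | cons a l =>
    unfold gnf
    rw [List.foldl_cons]
    simp only [cond_false]
    rw [gnf_aux]
    simp

theorem c_gn {α : Type*} [Primcodable α] {γ : α → ℕ → ℕ → Bool} {l : α → List ℕ}
    (hγ : Computable fun p : α × ℕ × ℕ => γ p.1 p.2.1 p.2.2) (hl : Computable l) :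
    Computable fun a => gn (γ a) (l a) := by
  have h : Computable fun a => gnf (γ a) (l a) := by
    unfold gnf
    refine Computable.snd.comp ?_
    refine RE.list_foldl (h := fun (a : α) (p : ((Bool × ℕ) × ℕ) × ℕ) =>
      ((true, p.2), bif p.1.1.1 then p.1.2 + (bif γ a p.1.1.2 p.2 then 1 else 0) else p.1.2)) hl
      (Computable.const _) ?_
    unfold Computable₂
    have h1 : Computable fun x : α × (((Bool × ℕ) × ℕ) × ℕ) =>
        γ x.1 x.2.1.1.2 x.2.2 :=
      hγ.comp (g := fun x : α × (((Bool × ℕ) × ℕ) × ℕ) => (x.1, x.2.1.1.2, x.2.2))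
        (by fun_prop)
    fun_prop
  exact h.of_eq fun a => gnf_eq _ _

theorem c_col {W : ℕ → ℕ → Bool} (hW : Computable fun q : ℕ × ℕ => W q.1 q.2) :
    Computable fun n => col W n := by
  have h1 : Computable fun p : ℕ × ℕ × ℕ => Ev W (la p.1) p.2.1 p.2.2 := by
    unfold Ev
    refine computable_exB (q := fun (p : ℕ × ℕ × ℕ) z => W p.2.2 z && !(W p.2.1 z)) ?_
      (by fun_prop)
    unfold Computable₂
    have h1 := hW.comp (g := fun x : (ℕ × ℕ × ℕ) × ℕ => (x.1.2.2, x.2)) (by fun_prop)
    have h2 := hW.comp (g := fun x : (ℕ × ℕ × ℕ) × ℕ => (x.1.2.1, x.2)) (by fun_prop)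
    dsimp only at h1 h2
    fun_prop
  have h2 : Computable fun n => gn (Ev W (la n)) (L (U n)) :=
    c_gn (γ := fun n => Ev W (la n)) h1 (by fun_prop)
  have h3 : Computable fun n => la n + gn (Ev W (la n)) (L (U n)) :=
    Primrec.nat_add.to_comp.comp (c_la Computable.id) h2
  exact Primrec.nat_mod.to_comp.comp h3 (Computable.const 3)

/-- The universal computably enumerable set, with stages. -/
def W0 (s z : ℕ) : Bool := wst ℕ z.unpair.1 s z.unpair.2

theorem mon_W0 : Mon W0 := fun _ _ _ h h' => wst_mono h h'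

theorem c_W0 : Computable fun q : ℕ × ℕ => W0 q.1 q.2 :=
  wst_comp.comp (f := fun p : (ℕ × ℕ) × ℕ => wst ℕ p.1.1 p.1.2 p.2)
    (g := fun q : ℕ × ℕ => ((q.2.unpair.1, q.1), q.2.unpair.2)) (by fun_prop)

theorem univ_W0 {p : ℕ → Prop} (hp : REPred p) :
    ∃ e, ∀ x, p x ↔ ∃ s, W0 s (Nat.pair e x) = true := by
  obtain ⟨e, he⟩ := wst_univ hp
  refine ⟨e, fun x => ?_⟩
  rw [he]
  simp [W0]

/-- Solutions compute the universal computably enumerable set. -/
theorem computes {X : Set ℕ} (hX : X.Infinite)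
    (hc : ∀ x ∈ X, ∀ y ∈ X, 0 < x → 0 < y → x ≠ y → col W0 x = col W0 (x + y)) :
    REIn X (fun z => ∃ s, W0 s z = true) ∧ REIn X (fun z => ¬ ∃ s, W0 s z = true) := by
  have key : ∀ b : Bool, REIn X (fun z => ∃ h : ℕ, h ∈ X ∧ (0 < h ∧ z < la h ∧
      W0 (mu (U h)) z = b)) := by
    intro b
    refine REIn.ex (S := fun z h => h ∈ X ∧ (0 < h ∧ z < la h ∧ W0 (mu (U h)) z = b)) ?_
    refine (REIn.mem (f := fun x : ℕ × ℕ => x.2) (by fun_prop)).and (REIn.of_re ?_)
    refine RE.and (RE.lt (by fun_prop) (by fun_prop)) (RE.and (RE.lt (by fun_prop)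
      (by fun_prop)) (RE.eq ?_ (by fun_prop)))
    exact c_W0.comp (g := fun x : ℕ × ℕ => (mu (U x.2), x.1)) (by fun_prop)
  constructor
  · refine (key true).of_eq fun z => ?_
    constructor
    · rintro ⟨h, _, _, _, h1⟩; exact ⟨_, h1⟩
    · rintro ⟨s, hs⟩
      obtain ⟨h, hh, h0, hz⟩ := exists_far mon_W0 hX hc z
      exact ⟨h, hh, h0, hz, settled mon_W0 hX hc hh h0 hz hs⟩
  · refine (key false).of_eq fun z => ?_
    constructor
    · rintro ⟨h, hh, h0, hz, h1⟩ ⟨s, hs⟩
      rw [settled mon_W0 hX hc hh h0 hz hs] at h1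
      cases h1
    · intro hz'
      obtain ⟨h, hh, h0, hz⟩ := exists_far mon_W0 hX hc z
      refine ⟨h, hh, h0, hz, ?_⟩
      rw [← Bool.not_eq_true]
      exact fun hcc => hz' ⟨_, hcc⟩

end Pool.Agent.H645R2.C3
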