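import Pool.Agent.H645R2.C3.Bin
import Pool.Agent.Helper446.Oracle

/-! A 3-colouring all of whose homogeneous sets for sums of at most two terms compute `0'`. -/

namespace Pool.Agent.H645R2.C3

open Pool.Agent.Helper446 Pool.Agent.Helper446.RE Pool.Agent.Helper446.Oracle

/-- Monotone stages. -/
def Mon (W : ℕ → ℕ → Bool) : Prop := ∀ s t z, s ≤ t → W s z = true → W t z = true

/-- Some `z < q` is enumerated after stage `a` and by stage `b`. -/
def Ev (W : ℕ → ℕ → Bool) (q a b : ℕ) : Bool := exB (fun z => W b z && !(W a z)) q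

theorem Ev_iff {W : ℕ → ℕ → Bool} {q a b : ℕ} :
    Ev W q a b = true ↔ ∃ z < q, W b z = true ∧ W a z = false := by
  unfold Ev
  rw [exB_iff]
  simp only [Bool.and_eq_true, Bool.not_eq_true']

/-- The colour (as a number). -/
def col (W : ℕ → ℕ → Bool) (n : ℕ) : ℕ := (la n + gn (Ev W (la n)) (L (U n))) % 3

variable {W : ℕ → ℕ → Bool}

theorem exists_stage (hW : Mon W) (x : ℕ) :
    ∃ N, ∀ z < x, ∀ s, W s z = true → W N z = true := by
  induction x with
  | zero => exact ⟨0, fun z hz => absurd hz (by omega)⟩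
  | succ x ih =>
    obtain ⟨N, hN⟩ := ih
    by_cases h : ∃ s, W s x = true
    · obtain ⟨s, hs⟩ := h
      refine ⟨max N s, fun z hz t ht => ?_⟩
      rcases Nat.lt_or_ge z x with h1 | h1
      · exact hW _ _ _ (le_max_left _ _) (hN z (by omega) t ht)
      · have : z = x := by omega
        rw [this]
        exact hW _ _ _ (le_max_right _ _) hs
    · refine ⟨N, fun z hz t ht => ?_⟩
      rcases Nat.lt_or_ge z x with h1 | h1
      · exact hN z (by omega) t ht
      · have : z = x := by omega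
        exact absurd ⟨t, by rw [← this]; exact ht⟩ h

/-- Passing from `p` to `p + 1` changes the number of active gaps by at most one. -/
theorem gn_succ (hW : Mon W) (p : ℕ) (l : List ℕ) (hl : l.Pairwise (· < ·)) :
    gn (Ev W p) l ≤ gn (Ev W (p + 1)) l ∧ gn (Ev W (p + 1)) l ≤ gn (Ev W p) l + 1 ∧
      (∀ a r, l = a :: r → W a p = true → gn (Ev W (p + 1)) l = gn (Ev W p) l) := by
  induction l with
  | nil => exact ⟨le_rfl, by simp [gn], fun a r h => by cases h⟩
  | cons a l ih =>
    cases l with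
    | nil => exact ⟨le_rfl, by simp [gn], fun _ _ _ _ => by simp [gn]⟩
    | cons b t =>
      rw [List.pairwise_cons] at hl
      obtain ⟨i1, i2, i3⟩ := ih hl.2
      have hab : a < b := hl.1 b (by simp)
      have hev : Ev W (p + 1) a b = (Ev W p a b || (W b p && !(W a p))) := by
        rw [Bool.eq_iff_iff, Bool.or_eq_true, Ev_iff, Ev_iff, Bool.and_eq_true, Bool.not_eq_true']
        constructor
        · rintro ⟨z, hz, h1, h2⟩
          rcases Nat.lt_succ_iff_lt_or_eq.1 hz with h3 | h3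
          · exact Or.inl ⟨z, h3, h1, h2⟩
          · subst h3; exact Or.inr ⟨h1, h2⟩
        · rintro (⟨z, hz, h1, h2⟩ | ⟨h1, h2⟩)
          · exact ⟨z, by omega, h1, h2⟩
          · exact ⟨p, by omega, h1, h2⟩
      simp only [gn]
      rw [hev]
      cases hb : W b p
      · refine ⟨?_, ?_, ?_⟩
        · cases W a p <;> simp <;> omega
        · cases W a p <;> simp <;> omega
        · intro a' r h hh
          have : a' = a := (List.cons.inj h).1.symm
          subst this
          rw [hW a' b p hab.le hh] at hb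
          cases hb
      · have h3 := i3 b t rfl hb
        rw [h3]
        refine ⟨?_, ?_, ?_⟩
        · cases W a p <;> cases Ev W p a b <;> simp
        · cases W a p <;> cases Ev W p a b <;> simp <;> omega
        · intro a' r h hh
          have : a' = a := (List.cons.inj h).1.symm
          subst this
          rw [hh]
          simp

/-- The number of active gaps of a large number with a given residue. -/
theorem gn_residue (hW : Mon W) {p q M u : ℕ} (hM : ∀ z < p + 1, ∀ s, W s z = true → W M z = true)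
    (hq : q ≤ p + 1) (hu : u % 2 = 1) (hbig : 2 ^ (M + 1) ≤ u) :
    gn (Ev W q) (L u) = gn (Ev W q) (L (u % 2 ^ (M + 1)) ++ [M + 1]) := by
  set w := u % 2 ^ (M + 1) with hw
  have hwpos : 0 < w := by
    have h1 : w % 2 = u % 2 := by
      rw [hw, pow_succ]
      exact Nat.mod_mod_of_dvd u (Dvd.intro_left _ rfl)
    omega
  have hwlt : w < 2 ^ (M + 1) := Nat.mod_lt _ (by positivity)
  have hR : u = w + 2 ^ (M + 1) * (u / 2 ^ (M + 1)) := (Nat.mod_add_div u _).symm
  set R := 2 ^ (M + 1) * (u / 2 ^ (M + 1)) with hRdef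
  have hRpos : 0 < R := Nat.mul_pos (by positivity) (Nat.div_pos hbig (by positivity))
  have hRd : 2 ^ (M + 1) ∣ R := ⟨_, rfl⟩
  have hnil := L_ne_nil hwpos
  have e1 : L u = L w ++ L R := by
    conv_lhs => rw [hR]
    exact L_add hwlt hRd
  rw [e1, gn_append _ _ hnil _ (L_ne_nil hRpos), gn_append _ _ hnil _ (by simp)]
  have hstab : ∀ a b, M ≤ a → Ev W q a b = false := by
    intro a b ha
    rw [← Bool.not_eq_true, Ev_iff]
    rintro ⟨z, hz, h1, h2⟩
    have h3 := hW _ _ _ ha (hM z (by omega) b h1)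
    rw [h2] at h3; cases h3
  have hlR : M + 1 ≤ (L R).headD 0 := le_mem_L hRd (la_mem hRpos)
  have e2 : gn (Ev W q) (L R) = 0 := gn_zero fun a ha b _ =>
    hstab a b (by have := le_mem_L hRd ha; omega)
  have e3 : Ev W q ((L w).getLastD 0) ((L R).headD 0) =
      Ev W q ((L w).getLastD 0) (([M + 1] : List ℕ).headD 0) := by
    rw [Bool.eq_iff_iff, Ev_iff, Ev_iff]
    simp only [List.headD_cons]
    constructor
    · rintro ⟨z, hz, h1, h2⟩
      exact ⟨z, hz, hW M _ z (by omega) (hM z (by omega) _ h1), h2⟩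
    · rintro ⟨z, hz, h1, h2⟩
      exact ⟨z, hz, hW M _ z (by omega) (hM z (by omega) _ h1), h2⟩
  rw [e2, e3]
  simp [gn]

/-- Elements with the same lowest position: finitely many. -/
theorem finite_fiber (hW : Mon W) {X : Set ℕ}
    (hc : ∀ x ∈ X, ∀ y ∈ X, 0 < x → 0 < y → x ≠ y → col W x = col W (x + y)) (p : ℕ) :
    {x | x ∈ X ∧ 0 < x ∧ la x = p}.Finite := by
  by_contra hinf
  obtain ⟨M, hM⟩ := exists_stage hW (p + 1)
  have hinf2 : {x | (x ∈ X ∧ 0 < x ∧ la x = p) ∧ 2 ^ (M + 1) ≤ U x}.Infinite := by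
    intro hfin
    apply hinf
    refine (hfin.union (Set.finite_Iio (2 ^ p * 2 ^ (M + 1)))).subset ?_
    intro x hx
    by_cases h : 2 ^ (M + 1) ≤ U x
    · exact Or.inl ⟨hx, h⟩
    · right
      rw [Set.mem_Iio]
      have h1 : x = 2 ^ la x * U x := eq_two_pow_mul
      rw [h1, hx.2.2]
      exact Nat.mul_lt_mul_of_pos_left (not_le.1 h) (by positivity)
  obtain ⟨x, hx, y, hy, hxy, hres⟩ := hinf2.exists_ne_map_eq_of_mapsTo
    (f := fun x => U x % 2 ^ (M + 2)) (t := Set.Iio (2 ^ (M + 2)))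
    (fun x _ => Nat.mod_lt _ (by positivity)) (Set.finite_Iio _)
  -- wlog U x ≤ U y
  have key : ∀ x y, ((x ∈ X ∧ 0 < x ∧ la x = p) ∧ 2 ^ (M + 1) ≤ U x) →
      ((y ∈ X ∧ 0 < y ∧ la y = p) ∧ 2 ^ (M + 1) ≤ U y) → x ≠ y →
      U x % 2 ^ (M + 2) = U y % 2 ^ (M + 2) → U x ≤ U y → False := by
    intro x y hx hy hxy hres hle
    obtain ⟨t, ht⟩ : 2 ^ (M + 2) ∣ U y - U x := (Nat.modEq_iff_dvd' hle).1 hres
    have hy' : U y = U x + 2 ^ (M + 2) * t := by omega
    have hsum : x + y = 2 ^ (p + 1) * (U x + 2 ^ (M + 1) * t) := by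
      have h1 : x = 2 ^ la x * U x := eq_two_pow_mul
      have h2 : y = 2 ^ la y * U y := eq_two_pow_mul
      rw [hx.1.2.2] at h1
      rw [hy.1.2.2, hy'] at h2
      rw [h1, h2]
      have h3 : U (2 ^ p * U x) = U x := U_two_pow_mul (U_odd hx.1.2.1)
      rw [h3]
      ring
    have hodd : U x % 2 = 1 := U_odd hx.1.2.1
    have hodd2 : (U x + 2 ^ (M + 1) * t) % 2 = 1 := by
      rw [pow_succ, mul_assoc, mul_comm (2 ^ M), mul_assoc]
      omega
    have e1 := hc x hx.1.1 y hy.1.1 hx.1.2.1 hy.1.2.1 hxy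
    unfold col at e1
    rw [hsum, la_two_pow_mul hodd2, U_two_pow_mul hodd2, hx.1.2.2] at e1
    rw [gn_residue hW hM (by omega) hodd hx.2,
      gn_residue hW hM le_rfl hodd2 (le_trans hx.2 (Nat.le_add_right _ _)),
      Nat.add_mul_mod_self_left] at e1
    have hs : (L (U x % 2 ^ (M + 1)) ++ [M + 1]).Pairwise (· < ·) := by
      rw [List.pairwise_append]
      refine ⟨(L_sorted _).pairwise, by simp, fun a ha b hb => ?_⟩
      rw [List.mem_singleton] at hb
      rw [hb]
      exact mem_L_lt (Nat.mod_lt _ (by positivity)) ha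
    obtain ⟨g1, g2, _⟩ := gn_succ hW p _ hs
    omega
  rcases le_total (U x) (U y) with h | h
  · exact key x y hx hy hxy hres h
  · exact key y x hy hx hxy.symm hres.symm h

theorem exists_far (hW : Mon W) {X : Set ℕ} (hX : X.Infinite)
    (hc : ∀ x ∈ X, ∀ y ∈ X, 0 < x → 0 < y → x ≠ y → col W x = col W (x + y)) (N : ℕ) :
    ∃ x ∈ X, 0 < x ∧ N < la x := by
  by_contra hcon
  push Not at hcon
  apply hX
  have h1 : X ⊆ {0} ∪ ⋃ p ∈ Set.Iic N, {x | x ∈ X ∧ 0 < x ∧ la x = p} := by
    intro x hx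
    rcases Nat.eq_zero_or_pos x with h | h
    · left; exact h
    · right
      simp only [Set.mem_iUnion]
      exact ⟨la x, hcon x hx h, hx, h, rfl⟩
  refine Set.Finite.subset ((Set.finite_singleton 0).union ?_) h1
  exact Set.Finite.biUnion (Set.finite_Iic N) fun p _ => finite_fiber hW hc p

/-- Every element of a solution bounds the modulus. -/
theorem settled (hW : Mon W) {X : Set ℕ} (hX : X.Infinite)
    (hc : ∀ x ∈ X, ∀ y ∈ X, 0 < x → 0 < y → x ≠ y → col W x = col W (x + y)) {h : ℕ}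
    (hh : h ∈ X) (h0 : 0 < h) {z s : ℕ} (hz : z < la h) (hs : W s z = true) :
    W (mu (U h)) z = true := by
  by_contra hcon
  rw [Bool.not_eq_true] at hcon
  obtain ⟨M0, hM0⟩ := exists_stage hW (la h)
  set M := max M0 s with hMdef
  have hM : ∀ z < la h, ∀ s, W s z = true → W M z = true := fun z hz s hs =>
    hW M0 _ z (le_max_left _ _) (hM0 z hz s hs)
  obtain ⟨l, hl, hl0, hll⟩ := exists_far hW hX hc (la h + (M + U h))
  set p := la h with hp
  set K := la l - p with hK
  have hKl : la l = p + K := by omega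
  have hKpos : 0 < K := by omega
  set l' := 2 ^ K * U l with hl'
  have e1 : h = 2 ^ p * U h := eq_two_pow_mul
  have e2 : l = 2 ^ p * l' := by
    rw [hl', ← mul_assoc, ← pow_add, ← hKl]
    exact eq_two_pow_mul
  have hUodd : U h % 2 = 1 := U_odd h0
  have hl'even : l' % 2 = 0 := by
    obtain ⟨j, hj⟩ := Nat.exists_eq_add_of_lt hKpos
    rw [hl', hj, Nat.zero_add, pow_succ, mul_comm (2 ^ j), mul_assoc]
    exact Nat.mul_mod_right _ _
  have hsumodd : (U h + l') % 2 = 1 := by omega
  have e3 : h + l = 2 ^ p * (U h + l') := by rw [mul_add, ← e1, ← e2]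
  have hne : h ≠ l := by
    intro hcc
    rw [← hcc] at hll
    omega
  have hcol := hc h hh l hl h0 hl0 hne
  unfold col at hcol
  rw [e3, la_two_pow_mul hsumodd, U_two_pow_mul hsumodd, ← hp] at hcol
  have hUlt : U h < 2 ^ K := lt_of_lt_of_le (Nat.lt_pow_self (by norm_num))
    (Nat.pow_le_pow_right (by norm_num) (by omega))
  have hl'pos : 0 < l' := by
    rw [hl']
    exact Nat.mul_pos (by positivity) (by have := U_odd hl0; omega)
  have hl'd : 2 ^ K ∣ l' := ⟨_, rfl⟩
  rw [L_add hUlt hl'd, gn_append _ _ (L_ne_nil (by omega)) _ (L_ne_nil hl'pos)] at hcol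
  have e4 : gn (Ev W p) (L l') = 0 := gn_zero fun a ha b _ => by
    rw [← Bool.not_eq_true, Ev_iff]
    rintro ⟨z', hz', h1, h2⟩
    have h3 := hW _ a _ (by have := le_mem_L hl'd ha; omega) (hM z' hz' b h1)
    rw [h2] at h3; cases h3
  have e5 : Ev W p ((L (U h)).getLastD 0) ((L l').headD 0) = true := by
    rw [Ev_iff]
    refine ⟨z, hz, hW s _ z ?_ hs, hcon⟩
    have : K ≤ (L l').headD 0 := le_mem_L hl'd (la_mem hl'pos)
    omega
  rw [e4, e5] at hcol
  simp only [Bool.toNat_true] at hcol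
  omega

end Pool.Agent.H645R2.C3
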